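import Pool.Agent.Helper57.Ced.Assembly

open Pool.Agent.Helper57.Ced

namespace Pool.Agent.Results.MP_cf6e1a_co.EarNotShellable

/-- There is a finite pure 3-dimensional simplicial complex which admits a convex ear
decomposition and is not shellable. -/
theorem result : ∃ (V : Type) (_ : Fintype V) (_ : DecidableEq V)
    (Δ : PreAbstractSimplicialComplex V), HasConvexEarDecomposition 4 Δ ∧ ¬ Shellable Δ :=
  ⟨VV, inferInstance, inferInstance, Δ, hasCED_Δ, not_shellable_Δ⟩

end Pool.Agent.Results.MP_cf6e1a_co.EarNotShellable
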